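import Mathlib
import Pool.Agent.H5R2.NL.Cut

set_option autoImplicit false

noncomputable section

open MeasureTheory Filter Topology
open scoped ENNReal

namespace Pool.Agent.N263.HS

abbrev E3 := EuclideanSpace ℝ (Fin 3)

/-- smooth compactly supported -/
abbrev Sm (φ : E3 → ℝ) : Prop := ContDiff ℝ ((⊤ : ℕ∞) : WithTop ℕ∞) φ

theorem norm_grad (φ : E3 → ℝ) (x : E3) : ‖gradient φ x‖ = ‖fderiv ℝ φ x‖ := by
  unfold gradient
  exact LinearIsometryEquiv.norm_map _ _

theorem Sm.grad_cont {φ : E3 → ℝ} (h : Sm φ) : Continuous (gradient φ) := by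
  have h1 : Continuous (fderiv ℝ φ) := h.continuous_fderiv (by simp)
  unfold gradient
  exact (InnerProductSpace.toDual ℝ E3).symm.continuous.comp h1

theorem Sm.grad_cpt {φ : E3 → ℝ} (hc : HasCompactSupport φ) :
    HasCompactSupport (gradient φ) := by
  have h1 : HasCompactSupport (fderiv ℝ φ) := hc.fderiv (𝕜 := ℝ)
  have : gradient φ = (fun L => (InnerProductSpace.toDual ℝ E3).symm L) ∘ fderiv ℝ φ := rfl
  rw [this]
  exact h1.comp_left (by simp)

theorem grad_sub {φ ψ : E3 → ℝ} (h1 : Sm φ) (h2 : Sm ψ) (x : E3) :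
    gradient (fun y => φ y - ψ y) x = gradient φ x - gradient ψ x := by
  unfold gradient
  have : fderiv ℝ (fun y => φ y - ψ y) x = fderiv ℝ φ x - fderiv ℝ ψ x :=
    fderiv_fun_sub ((h1.differentiable (by simp)) x) ((h2.differentiable (by simp)) x)
  rw [this, map_sub]

theorem Sm.memLp {φ : E3 → ℝ} (h : Sm φ) (hc : HasCompactSupport φ) (q : ℝ≥0∞) :
    MemLp φ q volume := h.continuous.memLp_of_hasCompactSupport hc

theorem Sm.grad_memLp {φ : E3 → ℝ} (h : Sm φ) (hc : HasCompactSupport φ) (q : ℝ≥0∞) :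
    MemLp (gradient φ) q volume :=
  (Sm.grad_cont h).memLp_of_hasCompactSupport (Sm.grad_cpt hc)

/-- Sobolev -/
theorem sobolev : ∃ S : ENNReal, S ≠ ∞ ∧ ∀ φ : E3 → ℝ, Sm φ → HasCompactSupport φ →
    eLpNorm φ 6 volume ≤ S * eLpNorm (gradient φ) 2 volume := by
  refine ⟨SNormLESNormFDerivOfEqConst ℝ (volume : Measure E3) 2, by simp, ?_⟩
  intro φ h hc
  have hfin : Module.finrank ℝ E3 = 3 := by simp
  have h1 := eLpNorm_le_eLpNorm_fderiv_of_eq (μ := (volume : Measure E3)) (F := ℝ)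
    (u := φ) (h.of_le (by exact_mod_cast le_top)) hc (p := 2) (p' := 6) (by norm_num)
    (by rw [hfin]; norm_num) (by rw [hfin]; norm_num)
  have h2 : eLpNorm (fderiv ℝ φ) 2 volume = eLpNorm (gradient φ) 2 volume :=
    eLpNorm_congr_norm_ae (Eventually.of_forall fun x => (norm_grad φ x).symm)
  have h3 : ((6 : NNReal) : ENNReal) = 6 := by norm_num
  have h4 : ((2 : NNReal) : ENNReal) = 2 := by norm_num
  rw [h3, h4, h2] at h1
  exact_mod_cast h1

theorem eLp_pow {F : Type*} [NormedAddCommGroup F] (f : E3 → F) (k : ℕ) (hk : k ≠ 0)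
    (hf : MemLp f k volume) :
    ∫ x, ‖f x‖ ^ k = (eLpNorm f k volume).toReal ^ k := by
  have h0 : (k : ENNReal) ≠ 0 := by exact_mod_cast hk
  have h1 : (k : ENNReal) ≠ ∞ := by simp
  have h2 := hf.eLpNorm_eq_integral_rpow_norm h0 h1
  rw [h2]
  have h3 : 0 ≤ ∫ a, ‖f a‖ ^ (k : ENNReal).toReal := integral_nonneg fun x => by positivity
  rw [ENNReal.toReal_ofReal (by positivity)]
  have h4 : (k : ENNReal).toReal = (k : ℝ) := by simp
  rw [h4] at h3 ⊢
  rw [← Real.rpow_natCast, ← Real.rpow_mul h3]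
  have : ((k : ℝ)⁻¹ * (k : ℝ)) = 1 := by
    have : (k : ℝ) ≠ 0 := by exact_mod_cast hk
    field_simp
  rw [this, Real.rpow_one]
  simp only [Real.rpow_natCast]

theorem eLp_int {F : Type*} [NormedAddCommGroup F] (f : E3 → F) (k : ℕ) (hk : k ≠ 0)
    (hf : MemLp f k volume) : Integrable fun x => ‖f x‖ ^ k := by
  have h0 : (k : ENNReal) ≠ 0 := by exact_mod_cast hk
  have h1 : (k : ENNReal) ≠ ∞ := by simp
  have h2 := hf.integrable_norm_rpow h0 h1
  simpa using h2

/-- Hardy -/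
theorem hardyS (φ : E3 → ℝ) (h : Sm φ) (hc : HasCompactSupport φ) :
    eLpNorm (fun x => ‖x‖⁻¹ * φ x) 2 volume ≤ 2 * eLpNorm (gradient φ) 2 volume := by
  have hu : ContDiff ℝ 1 fun x => (φ x : ℂ) :=
    (Complex.ofRealCLM.contDiff.comp h).of_le (by exact_mod_cast le_top)
  have hcu : HasCompactSupport fun x => (φ x : ℂ) :=
    hc.comp_left (g := fun r : ℝ => (r : ℂ)) (by simp)
  obtain ⟨h1, h2⟩ := Pool.Agent.H5R2.NL.hardy 0 (fun x => (φ x : ℂ)) hu hcu
  have e1 : (fun x : E3 => ‖(φ x : ℂ)‖ ^ 2 / ‖x - 0‖ ^ 2)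
      = fun x => ‖‖x‖⁻¹ * φ x‖ ^ 2 := by
    funext x
    rw [Complex.norm_real, norm_mul, norm_inv, norm_norm, sub_zero]
    rw [mul_pow, div_eq_mul_inv, inv_pow]; ring
  have e2 : ∀ x, Pool.Agent.H5R2.NL.gsq (fun x => (φ x : ℂ)) x = ‖gradient φ x‖ ^ 2 := by
    intro x
    have h1 : HasFDerivAt φ (fderiv ℝ φ x) x := ((h.differentiable (by simp)) x).hasFDerivAt
    have h2 : HasFDerivAt (fun y => (φ y : ℂ)) (Complex.ofRealCLM.comp (fderiv ℝ φ x)) x :=
      Complex.ofRealCLM.hasFDerivAt.comp x h1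
    unfold Pool.Agent.H5R2.NL.gsq
    rw [h2.fderiv, EuclideanSpace.norm_sq_eq]
    refine Finset.sum_congr rfl fun c _ => ?_
    show ‖((fderiv ℝ φ x (EuclideanSpace.single c 1) : ℝ) : ℂ)‖ ^ 2 = _
    rw [Complex.norm_real]
    congr 2
    have : fderiv ℝ φ x (EuclideanSpace.single c 1)
        = inner ℝ (gradient φ x) (EuclideanSpace.single c (1:ℝ)) := by
      unfold gradient
      simp
    rw [this, EuclideanSpace.inner_single_right]
    simp
  simp only [e2] at h2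
  simp only [e1] at h1 h2
  have hm : AEStronglyMeasurable (fun x : E3 => ‖x‖⁻¹ * φ x) volume :=
    (measurable_norm.inv.mul h.continuous.measurable).aestronglyMeasurable
  have hL : MemLp (fun x : E3 => ‖x‖⁻¹ * φ x) 2 volume := by
    rw [memLp_two_iff_integrable_sq_norm hm]
    exact h1
  have hG : MemLp (gradient φ) 2 volume := Sm.grad_memLp h hc 2
  have k1 := eLp_pow (fun x : E3 => ‖x‖⁻¹ * φ x) 2 (by norm_num) (by exact_mod_cast hL)
  have k2 := eLp_pow (gradient φ) 2 (by norm_num) (by exact_mod_cast hG)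
  rw [k1, k2] at h2
  have h5 : (eLpNorm (fun x : E3 => ‖x‖⁻¹ * φ x) 2 volume).toReal
      ≤ 2 * (eLpNorm (gradient φ) 2 volume).toReal := by
    have a1 : 0 ≤ (eLpNorm (gradient φ) 2 volume).toReal := ENNReal.toReal_nonneg
    refine abs_le_of_sq_le_sq' ?_ (by positivity) |>.2
    have : (2 * (eLpNorm (gradient φ) 2 volume).toReal) ^ 2
      = 4 * (eLpNorm (gradient φ) 2 volume).toReal ^ 2 := by ring
    rw [this]
    exact_mod_cast h2
  have h6 : 2 * (eLpNorm (gradient φ) 2 volume).toReal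
      = (2 * eLpNorm (gradient φ) 2 volume).toReal := by
    rw [ENNReal.toReal_mul]; simp
  rw [h6] at h5
  exact (ENNReal.toReal_le_toReal hL.2.ne (ENNReal.mul_ne_top (by simp) hG.2.ne)).1 h5

end Pool.Agent.N263.HS
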