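import Mathlib
import Pool.Agent.N263.HS.Basic

set_option autoImplicit false

noncomputable section

open MeasureTheory Filter Topology
open scoped ENNReal

namespace Pool.Agent.N263.HS

/-- `ψ n` are test functions with supports in `Ω` converging in `H¹` to `(w, W)`. -/
structure Lim (Ω : Set E3) (ψ : ℕ → E3 → ℝ) (w : E3 → ℝ) (W : E3 → E3) : Prop where
  smooth : ∀ n, Sm (ψ n)
  cpt : ∀ n, HasCompactSupport (ψ n)
  supp : ∀ n, tsupport (ψ n) ⊆ Ω
  hw : MemLp w 2 volume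
  hW : MemLp W 2 volume
  lim0 : Tendsto (fun n => eLpNorm (fun x => ψ n x - w x) 2 volume) atTop (𝓝 0)
  lim1 : Tendsto (fun n => eLpNorm (fun x => gradient (ψ n) x - W x) 2 volume) atTop (𝓝 0)

theorem Lim.subseq {Ω : Set E3} {ψ : ℕ → E3 → ℝ} {w : E3 → ℝ} {W : E3 → E3}
    (L : Lim Ω ψ w W) : ∃ ns : ℕ → ℕ, StrictMono ns ∧
      ∀ᵐ x ∂(volume : Measure E3), Tendsto (fun i => ψ (ns i) x) atTop (𝓝 (w x)) := by
  have h1 : TendstoInMeasure volume ψ atTop w :=
    tendstoInMeasure_of_tendsto_eLpNorm (p := 2) (by norm_num)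
      (fun n => (L.smooth n).continuous.aestronglyMeasurable) L.hw.1 L.lim0
  exact h1.exists_seq_tendsto_ae

theorem Lim.const {φ : E3 → ℝ} (h : Sm φ) (hc : HasCompactSupport φ) {Ω : Set E3}
    (hs : tsupport φ ⊆ Ω) : Lim Ω (fun _ => φ) φ (gradient φ) where
  smooth := fun _ => h
  cpt := fun _ => hc
  supp := fun _ => hs
  hw := h.memLp hc 2
  hW := h.grad_memLp hc 2
  lim0 := by simp
  lim1 := by simp

theorem Lim.sub {Ω : Set E3} {ψ ψ' : ℕ → E3 → ℝ} {w w' : E3 → ℝ} {W W' : E3 → E3}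
    (L : Lim Ω ψ w W) (L' : Lim Ω ψ' w' W') :
    Lim Ω (fun n x => ψ n x - ψ' n x) (fun x => w x - w' x) (fun x => W x - W' x) where
  smooth := fun n => (L.smooth n).sub (L'.smooth n)
  cpt := fun n => by
    have : (fun x => ψ n x - ψ' n x) = (ψ n) - (ψ' n) := rfl
    rw [this, sub_eq_add_neg]
    exact (L.cpt n).add ((L'.cpt n).neg)
  supp := fun n => by
    have h1 : tsupport (fun x => ψ n x - ψ' n x) ⊆ tsupport (ψ n) ∪ tsupport (ψ' n) := by
      apply closure_minimal _ ((isClosed_tsupport _).union (isClosed_tsupport _))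
      intro x hx
      by_contra hcon
      simp only [Set.mem_union, not_or] at hcon
      have a1 := image_eq_zero_of_notMem_tsupport hcon.1
      have a2 := image_eq_zero_of_notMem_tsupport hcon.2
      apply hx
      simp [a1, a2]
    exact h1.trans (Set.union_subset (L.supp n) (L'.supp n))
  hw := L.hw.sub L'.hw
  hW := L.hW.sub L'.hW
  lim0 := by
    have h1 : ∀ n, eLpNorm (fun x => (ψ n x - ψ' n x) - (w x - w' x)) 2 volume
        ≤ eLpNorm (fun x => ψ n x - w x) 2 volume + eLpNorm (fun x => ψ' n x - w' x) 2 volume := by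
      intro n
      have e : (fun x => (ψ n x - ψ' n x) - (w x - w' x))
        = (fun x => ψ n x - w x) - (fun x => ψ' n x - w' x) := by
          funext x; simp only [Pi.sub_apply]; ring
      rw [e]
      exact eLpNorm_sub_le (((L.smooth n).continuous.aestronglyMeasurable).sub L.hw.1)
        (((L'.smooth n).continuous.aestronglyMeasurable).sub L'.hw.1) (by norm_num)
    have h2 := L.lim0.add L'.lim0
    rw [add_zero] at h2
    exact tendsto_of_tendsto_of_tendsto_of_le_of_le tendsto_const_nhds h2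
      (fun _ => zero_le) h1
  lim1 := by
    have h1 : ∀ n, eLpNorm (fun x => gradient (fun x => ψ n x - ψ' n x) x - (W x - W' x)) 2 volume
        ≤ eLpNorm (fun x => gradient (ψ n) x - W x) 2 volume
          + eLpNorm (fun x => gradient (ψ' n) x - W' x) 2 volume := by
      intro n
      have e : (fun x => gradient (fun x => ψ n x - ψ' n x) x - (W x - W' x))
        = (fun x => gradient (ψ n) x - W x) - (fun x => gradient (ψ' n) x - W' x) := by
          funext x; simp only [Pi.sub_apply]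
          rw [grad_sub (L.smooth n) (L'.smooth n)]
          abel
      rw [e]
      exact eLpNorm_sub_le (((Sm.grad_cont (L.smooth n)).aestronglyMeasurable).sub L.hW.1)
        (((Sm.grad_cont (L'.smooth n)).aestronglyMeasurable).sub L'.hW.1) (by norm_num)
    have h2 := L.lim1.add L'.lim1
    rw [add_zero] at h2
    exact tendsto_of_tendsto_of_tendsto_of_le_of_le tendsto_const_nhds h2
      (fun _ => zero_le) h1

/-- Fatou for a sequence of test functions, with a constant limit bound. -/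
theorem fatou {ψ : ℕ → E3 → ℝ} {w : E3 → ℝ} {ns : ℕ → ℕ}
    (hns : StrictMono ns)
    (hm : ∀ n, AEStronglyMeasurable (ψ n) volume)
    (hae : ∀ᵐ x ∂(volume : Measure E3), Tendsto (fun i => ψ (ns i) x) atTop (𝓝 (w x)))
    (h : E3 → ℝ) (hh : Measurable h) (q : ℝ≥0∞) (b : ℕ → ℝ≥0∞) (B : ℝ≥0∞)
    (hb : ∀ n, eLpNorm (fun x => h x * ψ n x) q volume ≤ b n)
    (hB : Tendsto b atTop (𝓝 B)) :
    eLpNorm (fun x => h x * w x) q volume ≤ B := by
  have h1 : eLpNorm (fun x => h x * w x) q volume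
      ≤ atTop.liminf fun i => eLpNorm (fun x => h x * ψ (ns i) x) q volume := by
    refine Lp.eLpNorm_lim_le_liminf_eLpNorm
      (fun i => hh.aestronglyMeasurable.mul (hm (ns i))) _ ?_
    filter_upwards [hae] with x hx
    exact hx.const_mul (h x)
  refine h1.trans ?_
  have h2 : Tendsto (fun i => b (ns i)) atTop (𝓝 B) := hB.comp hns.tendsto_atTop
  calc (atTop.liminf fun i => eLpNorm (fun x => h x * ψ (ns i) x) q volume)
      ≤ atTop.liminf fun i => b (ns i) :=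
        liminf_le_liminf (Eventually.of_forall fun i => hb (ns i))
    _ = B := h2.liminf_eq

theorem Lim.bound {Ω : Set E3} {ψ : ℕ → E3 → ℝ} {w : E3 → ℝ} {W : E3 → E3}
    (L : Lim Ω ψ w W) (h : E3 → ℝ) (hh : Measurable h) (q C : ℝ≥0∞) (hC : C ≠ ∞)
    (H : ∀ φ : E3 → ℝ, Sm φ → HasCompactSupport φ →
      eLpNorm (fun x => h x * φ x) q volume ≤ C * eLpNorm (gradient φ) 2 volume) :
    eLpNorm (fun x => h x * w x) q volume ≤ C * eLpNorm W 2 volume := by
  obtain ⟨ns, hns, hae⟩ := L.subseq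
  refine fatou hns (fun n => (L.smooth n).continuous.aestronglyMeasurable) hae h hh q
    (fun n => C * (eLpNorm (fun x => gradient (ψ n) x - W x) 2 volume + eLpNorm W 2 volume))
    _ ?_ ?_
  · intro n
    refine (H (ψ n) (L.smooth n) (L.cpt n)).trans ?_
    gcongr
    have e : gradient (ψ n) = (fun x => gradient (ψ n) x - W x) + W := by
      funext x; simp
    conv_lhs => rw [e]
    exact eLpNorm_add_le (((Sm.grad_cont (L.smooth n)).aestronglyMeasurable).sub L.hW.1)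
      L.hW.1 (by norm_num)
  · have h1 := (L.lim1.add_const (eLpNorm W 2 volume))
    rw [zero_add] at h1
    exact ENNReal.Tendsto.const_mul h1 (Or.inr hC)

/-- the difference version -/
theorem Lim.bound_sub {Ω : Set E3} {ψ : ℕ → E3 → ℝ} {w : E3 → ℝ} {W : E3 → E3}
    (L : Lim Ω ψ w W) (h : E3 → ℝ) (hh : Measurable h) (q C : ℝ≥0∞) (hC : C ≠ ∞)
    (H : ∀ φ : E3 → ℝ, Sm φ → HasCompactSupport φ →
      eLpNorm (fun x => h x * φ x) q volume ≤ C * eLpNorm (gradient φ) 2 volume) (n : ℕ) :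
    eLpNorm (fun x => h x * (w x - ψ n x)) q volume
      ≤ C * eLpNorm (fun x => W x - gradient (ψ n) x) 2 volume :=
  (L.sub (Lim.const (L.smooth n) (L.cpt n) (L.supp n))).bound h hh q C hC H

theorem Lim.lim0' {Ω : Set E3} {ψ : ℕ → E3 → ℝ} {w : E3 → ℝ} {W : E3 → E3}
    (L : Lim Ω ψ w W) :
    Tendsto (fun n => eLpNorm (fun x => w x - ψ n x) 2 volume) atTop (𝓝 0) := by
  refine L.lim0.congr fun n => ?_
  refine eLpNorm_congr_norm_ae (Eventually.of_forall fun x => ?_)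
  exact norm_sub_rev _ _

theorem Lim.lim1' {Ω : Set E3} {ψ : ℕ → E3 → ℝ} {w : E3 → ℝ} {W : E3 → E3}
    (L : Lim Ω ψ w W) :
    Tendsto (fun n => eLpNorm (fun x => W x - gradient (ψ n) x) 2 volume) atTop (𝓝 0) := by
  refine L.lim1.congr fun n => ?_
  refine eLpNorm_congr_norm_ae (Eventually.of_forall fun x => ?_)
  exact norm_sub_rev _ _

theorem Lim.lim_h {Ω : Set E3} {ψ : ℕ → E3 → ℝ} {w : E3 → ℝ} {W : E3 → E3}
    (L : Lim Ω ψ w W) (h : E3 → ℝ) (hh : Measurable h) (q C : ℝ≥0∞) (hC : C ≠ ∞)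
    (H : ∀ φ : E3 → ℝ, Sm φ → HasCompactSupport φ →
      eLpNorm (fun x => h x * φ x) q volume ≤ C * eLpNorm (gradient φ) 2 volume) :
    Tendsto (fun n => eLpNorm (fun x => h x * (w x - ψ n x)) q volume) atTop (𝓝 0) := by
  have h1 := ENNReal.Tendsto.const_mul L.lim1' (Or.inr hC)
  rw [mul_zero] at h1
  exact tendsto_of_tendsto_of_tendsto_of_le_of_le tendsto_const_nhds h1
    (fun _ => zero_le) (fun n => L.bound_sub h hh q C hC H n)

theorem sob' : ∃ S : ENNReal, S ≠ ∞ ∧ ∀ φ : E3 → ℝ, Sm φ → HasCompactSupport φ →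
    eLpNorm (fun x => (1:ℝ) * φ x) 6 volume ≤ S * eLpNorm (gradient φ) 2 volume := by
  simpa using sobolev

/-- The Sobolev constant. -/
def SC : ENNReal := sob'.choose

theorem SC_ne : SC ≠ ∞ := sob'.choose_spec.1

theorem SC_spec (φ : E3 → ℝ) (h : Sm φ) (hc : HasCompactSupport φ) :
    eLpNorm (fun x => (1:ℝ) * φ x) 6 volume ≤ SC * eLpNorm (gradient φ) 2 volume :=
  sob'.choose_spec.2 φ h hc

theorem Lim.six {Ω : Set E3} {ψ : ℕ → E3 → ℝ} {w : E3 → ℝ} {W : E3 → E3}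
    (L : Lim Ω ψ w W) : eLpNorm w 6 volume ≤ SC * eLpNorm W 2 volume := by
  have := L.bound (fun _ => 1) measurable_const 6 SC SC_ne SC_spec
  simpa using this

theorem Lim.har {Ω : Set E3} {ψ : ℕ → E3 → ℝ} {w : E3 → ℝ} {W : E3 → E3}
    (L : Lim Ω ψ w W) : eLpNorm (fun x => ‖x‖⁻¹ * w x) 2 volume ≤ 2 * eLpNorm W 2 volume :=
  L.bound (fun x => ‖x‖⁻¹) measurable_norm.inv 2 2 (by simp) hardyS

theorem Lim.mem6 {Ω : Set E3} {ψ : ℕ → E3 → ℝ} {w : E3 → ℝ} {W : E3 → E3}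
    (L : Lim Ω ψ w W) : MemLp w 6 volume :=
  ⟨L.hw.1, lt_of_le_of_lt L.six (ENNReal.mul_lt_top SC_ne.lt_top L.hW.2)⟩

theorem Lim.memh {Ω : Set E3} {ψ : ℕ → E3 → ℝ} {w : E3 → ℝ} {W : E3 → E3}
    (L : Lim Ω ψ w W) : MemLp (fun x => ‖x‖⁻¹ * w x) 2 volume :=
  ⟨measurable_norm.inv.aestronglyMeasurable.mul L.hw.1,
    lt_of_le_of_lt L.har (ENNReal.mul_lt_top (by simp) L.hW.2)⟩

theorem Lim.six_sub {Ω : Set E3} {ψ : ℕ → E3 → ℝ} {w : E3 → ℝ} {W : E3 → E3}
    (L : Lim Ω ψ w W) :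
    Tendsto (fun n => eLpNorm (fun x => w x - ψ n x) 6 volume) atTop (𝓝 0) := by
  have := L.lim_h (fun _ => 1) measurable_const 6 SC SC_ne SC_spec
  simpa using this

theorem Lim.har_sub {Ω : Set E3} {ψ : ℕ → E3 → ℝ} {w : E3 → ℝ} {W : E3 → E3}
    (L : Lim Ω ψ w W) :
    Tendsto (fun n => eLpNorm (fun x => ‖x‖⁻¹ * (w x - ψ n x)) 2 volume) atTop (𝓝 0) :=
  L.lim_h (fun x => ‖x‖⁻¹) measurable_norm.inv 2 2 (by simp) hardyS

theorem Lim.zero_off {Ω : Set E3} {ψ : ℕ → E3 → ℝ} {w : E3 → ℝ} {W : E3 → E3}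
    (L : Lim Ω ψ w W) : ∀ᵐ x ∂(volume : Measure E3), x ∉ Ω → w x = 0 := by
  obtain ⟨ns, hns, hae⟩ := L.subseq
  filter_upwards [hae] with x hx hxΩ
  have h1 : ∀ i, ψ (ns i) x = 0 := fun i =>
    image_eq_zero_of_notMem_tsupport fun h => hxΩ (L.supp (ns i) h)
  simp only [h1] at hx
  exact tendsto_nhds_unique hx tendsto_const_nhds |>.symm ▸ rfl

/-- real version of the convergences -/
theorem tendsto_int_pow {F : Type*} [NormedAddCommGroup F] (f : ℕ → E3 → F) (k : ℕ) (hk : k ≠ 0)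
    (hf : ∀ n, MemLp (f n) k volume)
    (h : Tendsto (fun n => eLpNorm (f n) k volume) atTop (𝓝 0)) :
    Tendsto (fun n => ∫ x, ‖f n x‖ ^ k) atTop (𝓝 0) := by
  have h1 : ∀ n, ∫ x, ‖f n x‖ ^ k = (eLpNorm (f n) k volume).toReal ^ k :=
    fun n => eLp_pow (f n) k hk (hf n)
  simp only [h1]
  have h2 := (ENNReal.tendsto_toReal (by simp : (0:ENNReal) ≠ ∞)).comp h
  have h3 := h2.pow k
  simpa [hk] using h3

end Pool.Agent.N263.HS
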