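import Mathlib
import Pool.Agent.N263.HS.Lim

set_option autoImplicit false

noncomputable section

open MeasureTheory Filter Topology
open scoped ENNReal

namespace Pool.Agent.N263.HS

theorem young_a (g z ε : ℝ) (hε : 0 < ε) (hε1 : ε ≤ 1) :
    |g * z| ≤ ε * g ^ 2 + 1 / ε ^ 2 * z ^ 2 := by
  have h1 : 1 / ε ≤ 1 / ε ^ 2 := by
    apply one_div_le_one_div_of_le (by positivity)
    nlinarith
  have h2 : |g * z| ≤ ε * g ^ 2 + 1 / ε * z ^ 2 := by
    rw [abs_le]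
    have e1 : ε * g ^ 2 + 1 / ε * z ^ 2 + g * z = 1 / ε * ((ε * g + z / 2) ^ 2 + 3 / 4 * z ^ 2) := by
      field_simp; ring
    have e2 : ε * g ^ 2 + 1 / ε * z ^ 2 - g * z = 1 / ε * ((ε * g - z / 2) ^ 2 + 3 / 4 * z ^ 2) := by
      field_simp; ring
    have p1 : 0 ≤ 1 / ε * ((ε * g + z / 2) ^ 2 + 3 / 4 * z ^ 2) := by positivity
    have p2 : 0 ≤ 1 / ε * ((ε * g - z / 2) ^ 2 + 3 / 4 * z ^ 2) := by positivity
    constructor <;> linarith
  nlinarith [sq_nonneg z]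

theorem cube_le (z : ℝ) : |z| ^ 3 ≤ z ^ 2 + z ^ 6 := by
  have h0 := abs_nonneg z
  have e1 : z ^ 2 = |z| ^ 2 := (sq_abs z).symm
  have e2 : z ^ 6 = |z| ^ 6 := by
    have : z ^ 6 = (z ^ 2) ^ 3 := by ring
    rw [this, e1]; ring
  rw [e1, e2]
  nlinarith [sq_nonneg (|z| ^ 2 - |z|), sq_nonneg (|z|^3 - |z|), sq_nonneg (|z|^2 - 1),
    mul_nonneg h0 h0, sq_nonneg (|z|^3)]

theorem young_b (u z ε : ℝ) (hε : 0 < ε) :
    |u ^ 4 * z| ≤ ε * u ^ 6 + 1 / ε ^ 2 * (z ^ 2 + z ^ 6) := by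
  have hc := cube_le z
  have h0 := abs_nonneg z
  have e0 : |u ^ 4 * z| = u ^ 4 * |z| := by
    rw [abs_mul, abs_of_nonneg (by positivity : (0:ℝ) ≤ u ^ 4)]
  rw [e0]
  have p1 : 0 ≤ 1 / ε ^ 2 * (z ^ 2 + z ^ 6) := by positivity
  have p2 : 0 ≤ ε * u ^ 6 := by positivity
  rcases le_or_gt |z| (ε * u ^ 2) with h | h
  · have : u ^ 4 * |z| ≤ u ^ 4 * (ε * u ^ 2) := by gcongr
    nlinarith
  · have h3 : u ^ 2 < |z| / ε := by rw [lt_div_iff₀ hε]; linarith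
    have h4 : u ^ 4 ≤ (|z| / ε) ^ 2 := by
      have : u ^ 4 = (u ^ 2) ^ 2 := by ring
      rw [this]; gcongr
    have h5 : u ^ 4 * |z| ≤ (|z| / ε) ^ 2 * |z| := by gcongr
    have h6 : (|z| / ε) ^ 2 * |z| = 1 / ε ^ 2 * |z| ^ 3 := by field_simp
    have h7 : 1 / ε ^ 2 * |z| ^ 3 ≤ 1 / ε ^ 2 * (z ^ 2 + z ^ 6) := by gcongr
    linarith

theorem young_c (u z ε : ℝ) (hε : 0 < ε) (hε1 : ε ≤ 1) :
    |u ^ 3 * z| ≤ ε * u ^ 6 + 1 / ε ^ 2 * z ^ 2 := by
  have := young_a (u ^ 3) z ε hε hε1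
  have e : (u ^ 3) ^ 2 = u ^ 6 := by ring
  rwa [e] at this

/-- the full pointwise bound -/
theorem point_bd (g gz : E3) (u z h ε : ℝ) (hε : 0 < ε) (hε1 : ε ≤ 1) :
    |inner ℝ g gz + u ^ 4 * z - u ^ 3 * (h * z)|
      ≤ ε * (‖g‖ ^ 2 + 2 * u ^ 6) + 1 / ε ^ 2 * (‖gz‖ ^ 2 + (z ^ 2 + z ^ 6) + (h * z) ^ 2) := by
  have h1 : |inner ℝ g gz| ≤ |‖g‖ * ‖gz‖| := by
    rw [abs_of_nonneg (by positivity : 0 ≤ ‖g‖ * ‖gz‖)]
    exact abs_real_inner_le_norm g gz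
  have h2 := young_a ‖g‖ ‖gz‖ ε hε hε1
  have h3 := young_b u z ε hε
  have h4 := young_c u (h * z) ε hε hε1
  have h5 : |inner ℝ g gz + u ^ 4 * z - u ^ 3 * (h * z)|
      ≤ |inner ℝ g gz| + |u ^ 4 * z| + |u ^ 3 * (h * z)| := by
    refine (abs_sub _ _).trans ?_
    gcongr
    exact abs_add_le _ _
  nlinarith

structure Good (w : E3 → ℝ) : Prop where
  two : MemLp w 2 volume
  six : MemLp w 6 volume
  har : MemLp (fun x => ‖x‖⁻¹ * w x) 2 volume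

theorem Lim.good {Ω : Set E3} {ψ : ℕ → E3 → ℝ} {w : E3 → ℝ} {W : E3 → E3}
    (L : Lim Ω ψ w W) : Good w := ⟨L.hw, L.mem6, L.memh⟩

theorem Good.i2 {w : E3 → ℝ} (h : Good w) : Integrable fun x => w x ^ 2 := by
  have := eLp_int w 2 (by norm_num) (by exact_mod_cast h.two)
  simpa [Real.norm_eq_abs, sq_abs] using this

theorem Good.i6 {w : E3 → ℝ} (h : Good w) : Integrable fun x => w x ^ 6 := by
  have := eLp_int w 6 (by norm_num) (by exact_mod_cast h.six)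
  refine this.congr (Eventually.of_forall fun x => ?_)
  have e : w x ^ 6 = (w x ^ 2) ^ 3 := by ring
  simp only [Real.norm_eq_abs]
  rw [e, ← sq_abs (w x)]; ring

theorem Good.ih {w : E3 → ℝ} (h : Good w) : Integrable fun x => (‖x‖⁻¹ * w x) ^ 2 := by
  have := eLp_int (fun x => ‖x‖⁻¹ * w x) 2 (by norm_num) (by exact_mod_cast h.har)
  refine this.congr (Eventually.of_forall fun x => ?_)
  simp only [Real.norm_eq_abs, sq_abs]

theorem iG {W : E3 → E3} (h : MemLp W 2 volume) : Integrable fun x => ‖W x‖ ^ 2 :=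
  eLp_int W 2 (by norm_num) (by exact_mod_cast h)

theorem J_aesm {u w : E3 → ℝ} {G W : E3 → E3} (hu : AEStronglyMeasurable u volume)
    (hw : AEStronglyMeasurable w volume)
    (hG : AEStronglyMeasurable G volume) (hW : AEStronglyMeasurable W volume) :
    AEStronglyMeasurable (fun x => inner ℝ (G x) (W x) + u x ^ 4 * w x - u x ^ 3 * (‖x‖⁻¹ * w x))
      volume :=
  ((hG.inner hW).add ((hu.pow 4).mul hw)).sub
    ((hu.pow 3).mul (measurable_norm.inv.aestronglyMeasurable.mul hw))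

theorem J_int {u w : E3 → ℝ} {G W : E3 → E3} (hu : Good u) (hG : MemLp G 2 volume)
    (hw : Good w) (hW : MemLp W 2 volume) :
    Integrable (fun x => inner ℝ (G x) (W x) + u x ^ 4 * w x - u x ^ 3 * (‖x‖⁻¹ * w x)) volume := by
  have hI : Integrable (fun x => 1 * (‖G x‖ ^ 2 + 2 * u x ^ 6)
      + 1 / (1:ℝ) ^ 2 * (‖W x‖ ^ 2 + (w x ^ 2 + w x ^ 6) + (‖x‖⁻¹ * w x) ^ 2)) volume :=
    (((iG hG).add (hu.i6.const_mul 2)).const_mul 1).add
      ((((iG hW).add (hw.i2.add hw.i6)).add hw.ih).const_mul _)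
  refine hI.mono' (J_aesm hu.two.1 hw.two.1 hG.1 hW.1) (Eventually.of_forall fun x => ?_)
  exact point_bd (G x) (W x) (u x) (w x) ‖x‖⁻¹ 1 one_pos le_rfl

/-- Extension of the weak form. -/
theorem weak_ext {Ω : Set E3} {u : E3 → ℝ} {G : E3 → E3} (hu : Good u) (hG : MemLp G 2 volume)
    (hweak : ∀ ψ : E3 → ℝ, Sm ψ → HasCompactSupport ψ → tsupport ψ ⊆ Ω →
      ∫ x, (inner ℝ (G x) (gradient ψ x) + u x ^ 4 * ψ x - u x ^ 3 * (‖x‖⁻¹ * ψ x)) = 0)
    {ψ : ℕ → E3 → ℝ} {w : E3 → ℝ} {W : E3 → E3} (L : Lim Ω ψ w W) :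
    ∫ x, (inner ℝ (G x) (W x) + u x ^ 4 * w x - u x ^ 3 * (‖x‖⁻¹ * w x)) = 0 := by
  set J : ℝ := ∫ x, (inner ℝ (G x) (W x) + u x ^ 4 * w x - u x ^ 3 * (‖x‖⁻¹ * w x)) with hJ
  set I : ℝ := ∫ x, (‖G x‖ ^ 2 + 2 * u x ^ 6) with hI
  have hIi : Integrable (fun x => ‖G x‖ ^ 2 + 2 * u x ^ 6) := (iG hG).add (hu.i6.const_mul 2)
  -- the differences
  have LD : ∀ n, Lim Ω (fun m x => ψ m x - ψ n x) (fun x => w x - ψ n x)
      (fun x => W x - gradient (ψ n) x) := fun n =>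
    L.sub (Lim.const (L.smooth n) (L.cpt n) (L.supp n))
  set D : ℕ → ℝ := fun n => (∫ x, ‖W x - gradient (ψ n) x‖ ^ 2)
      + ((∫ x, ‖w x - ψ n x‖ ^ 2) + ∫ x, ‖w x - ψ n x‖ ^ 6)
      + ∫ x, ‖‖x‖⁻¹ * (w x - ψ n x)‖ ^ 2 with hD
  have hDlim : Tendsto D atTop (𝓝 0) := by
    have t1 := tendsto_int_pow (fun n x => W x - gradient (ψ n) x) 2 (by norm_num)
      (fun n => by exact_mod_cast (LD n).hW) (by exact_mod_cast L.lim1')
    have t2 := tendsto_int_pow (fun n x => w x - ψ n x) 2 (by norm_num)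
      (fun n => by exact_mod_cast (LD n).hw) (by exact_mod_cast L.lim0')
    have t3 := tendsto_int_pow (fun n x => w x - ψ n x) 6 (by norm_num)
      (fun n => by exact_mod_cast (LD n).mem6) (by exact_mod_cast L.six_sub)
    have t4 := tendsto_int_pow (fun n x => ‖x‖⁻¹ * (w x - ψ n x)) 2 (by norm_num)
      (fun n => by exact_mod_cast (LD n).memh) (by exact_mod_cast L.har_sub)
    have := (t1.add (t2.add t3)).add t4
    simp only [add_zero] at this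
    exact this
  have key : ∀ ε : ℝ, 0 < ε → ε ≤ 1 → ∀ n, |J| ≤ ε * I + 1 / ε ^ 2 * D n := by
    intro ε hε hε1 n
    have gn := (LD n).good
    have Wn := (LD n).hW
    have e0 := hweak (ψ n) (L.smooth n) (L.cpt n) (L.supp n)
    have i1 := J_int hu hG L.good L.hW
    have i2 := J_int hu hG (Lim.const (Ω := Ω) (L.smooth n) (L.cpt n) (L.supp n)).good
      ((L.smooth n).grad_memLp (L.cpt n) 2)
    have e1 : J = ∫ x, (inner ℝ (G x) (W x - gradient (ψ n) x) + u x ^ 4 * (w x - ψ n x)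
        - u x ^ 3 * (‖x‖⁻¹ * (w x - ψ n x))) := by
      rw [hJ, ← sub_zero (∫ x, (inner ℝ (G x) (W x) + u x ^ 4 * w x - u x ^ 3 * (‖x‖⁻¹ * w x))),
        ← e0, ← integral_sub i1 i2]
      refine integral_congr_ae (Eventually.of_forall fun x => ?_)
      simp only [inner_sub_right]
      ring
    have e2 : Integrable (fun x => ‖W x - gradient (ψ n) x‖ ^ 2
        + (‖w x - ψ n x‖ ^ 2 + ‖w x - ψ n x‖ ^ 6) + ‖‖x‖⁻¹ * (w x - ψ n x)‖ ^ 2) := by
      refine ((iG Wn).add ((eLp_int _ 2 (by norm_num) (by exact_mod_cast gn.two)).add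
        (eLp_int _ 6 (by norm_num) (by exact_mod_cast gn.six)))).add
        (eLp_int _ 2 (by norm_num) (by exact_mod_cast gn.har))
    have e3 : D n = ∫ x, (‖W x - gradient (ψ n) x‖ ^ 2
        + (‖w x - ψ n x‖ ^ 2 + ‖w x - ψ n x‖ ^ 6) + ‖‖x‖⁻¹ * (w x - ψ n x)‖ ^ 2) := by
      have a1 := iG Wn
      have a2 := (eLp_int (fun x => w x - ψ n x) 2 (by norm_num) (by exact_mod_cast gn.two))
      have a3 := (eLp_int (fun x => w x - ψ n x) 6 (by norm_num) (by exact_mod_cast gn.six))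
      have a4 := (eLp_int (fun x => ‖x‖⁻¹ * (w x - ψ n x)) 2 (by norm_num)
        (by exact_mod_cast gn.har))
      have b1 : Integrable (fun x => ‖w x - ψ n x‖ ^ 2 + ‖w x - ψ n x‖ ^ 6) := a2.add a3
      have b2 : Integrable (fun x => ‖W x - gradient (ψ n) x‖ ^ 2
        + (‖w x - ψ n x‖ ^ 2 + ‖w x - ψ n x‖ ^ 6)) := a1.add b1
      rw [integral_add b2 a4, integral_add a1 b1, integral_add a2 a3]
    rw [e1, e3]
    calc |∫ x, (inner ℝ (G x) (W x - gradient (ψ n) x) + u x ^ 4 * (w x - ψ n x)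
        - u x ^ 3 * (‖x‖⁻¹ * (w x - ψ n x)))|
        ≤ ∫ x, |(inner ℝ (G x) (W x - gradient (ψ n) x) + u x ^ 4 * (w x - ψ n x)
        - u x ^ 3 * (‖x‖⁻¹ * (w x - ψ n x)))| := abs_integral_le_integral_abs
      _ ≤ ∫ x, (ε * (‖G x‖ ^ 2 + 2 * u x ^ 6) + 1 / ε ^ 2 * (‖W x - gradient (ψ n) x‖ ^ 2
        + (‖w x - ψ n x‖ ^ 2 + ‖w x - ψ n x‖ ^ 6) + ‖‖x‖⁻¹ * (w x - ψ n x)‖ ^ 2)) := by
          refine integral_mono_of_nonneg (Eventually.of_forall fun x => abs_nonneg _)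
            ((hIi.const_mul ε).add (e2.const_mul _)) (Eventually.of_forall fun x => ?_)
          have := point_bd (G x) (W x - gradient (ψ n) x) (u x) (w x - ψ n x) ‖x‖⁻¹ ε hε hε1
          have s2 : ‖w x - ψ n x‖ ^ 2 = (w x - ψ n x) ^ 2 := by
            rw [Real.norm_eq_abs, sq_abs]
          have s6 : ‖w x - ψ n x‖ ^ 6 = (w x - ψ n x) ^ 6 := by
            have : (w x - ψ n x) ^ 6 = ((w x - ψ n x) ^ 2) ^ 3 := by ring
            rw [this, ← s2]; ring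
          have s3 : ‖‖x‖⁻¹ * (w x - ψ n x)‖ ^ 2 = (‖x‖⁻¹ * (w x - ψ n x)) ^ 2 := by
            rw [Real.norm_eq_abs, sq_abs]
          simp only [s2, s6, s3]
          exact this
      _ = _ := by
          rw [integral_add (hIi.const_mul ε) (e2.const_mul _), integral_const_mul,
            integral_const_mul]
  have key2 : ∀ ε : ℝ, 0 < ε → ε ≤ 1 → |J| ≤ ε * I := by
    intro ε hε hε1
    have h1 : Tendsto (fun n => ε * I + 1 / ε ^ 2 * D n) atTop (𝓝 (ε * I + 1 / ε ^ 2 * 0)) :=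
      (hDlim.const_mul _).const_add _
    rw [mul_zero, add_zero] at h1
    exact ge_of_tendsto' h1 (key ε hε hε1)
  have h3 : |J| ≤ 0 := by
    have h1 : Tendsto (fun n : ℕ => (1 / ((n : ℝ) + 1)) * I) atTop (𝓝 (0 * I)) :=
      (tendsto_one_div_add_atTop_nhds_zero_nat (𝕜 := ℝ)).mul_const I
    rw [zero_mul] at h1
    refine ge_of_tendsto' h1 fun n => key2 _ (by positivity) ?_
    rw [div_le_one (by positivity)]
    have : (0:ℝ) ≤ n := by positivity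
    linarith
  exact abs_nonpos_iff.1 h3

end Pool.Agent.N263.HS
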