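import Mathlib
import Pool.Agent.N263.HS.Weak

set_option autoImplicit false

noncomputable section

open MeasureTheory Filter Topology
open scoped ENNReal

namespace Pool.Agent.N263.HS

theorem dil_emb {l : ℝ} (hl : 0 < l) : MeasurableEmbedding (fun x : E3 => l • x) :=
  (Homeomorph.smulOfNeZero l hl.ne').measurableEmbedding

theorem dil_map {l : ℝ} (hl : 0 < l) :
    Measure.map (fun x : E3 => l • x) volume = ENNReal.ofReal (l ^ 3)⁻¹ • (volume : Measure E3) := by
  have h := Measure.map_addHaar_smul (volume : Measure E3) hl.ne'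
  have hfin : Module.finrank ℝ E3 = 3 := by simp
  rw [hfin, abs_of_nonneg (by positivity)] at h
  exact h

theorem dil_lint {l : ℝ} (hl : 1 ≤ l) (F : E3 → ℝ≥0∞) :
    ∫⁻ x, F (l • x) ≤ ∫⁻ x, F x := by
  have hl0 : 0 < l := by linarith
  have h1 : ∫⁻ x, F (l • x) = ∫⁻ y, F y ∂(Measure.map (fun x : E3 => l • x) volume) :=
    ((dil_emb hl0).lintegral_map F).symm
  rw [h1, dil_map hl0, lintegral_smul_measure]
  have h2 : ENNReal.ofReal (l ^ 3)⁻¹ ≤ 1 := by
    rw [ENNReal.ofReal_le_one]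
    exact inv_le_one_of_one_le₀ (one_le_pow₀ hl)
  calc ENNReal.ofReal (l ^ 3)⁻¹ • ∫⁻ x, F x ≤ 1 * ∫⁻ x, F x := by
        rw [smul_eq_mul]; gcongr
    _ = _ := one_mul _

theorem dil_eLp {F : Type*} [NormedAddCommGroup F] {l : ℝ} (hl : 1 ≤ l) (f : E3 → F) (p : ℝ≥0∞) :
    eLpNorm (fun x => f (l • x)) p volume ≤ eLpNorm f p volume := by
  have hl0 : 0 < l := by linarith
  have h1 : eLpNorm (fun x => f (l • x)) p volume
      = eLpNorm f p (Measure.map (fun x : E3 => l • x) volume) :=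
    ((dil_emb hl0).eLpNorm_map_measure).symm
  rw [h1, dil_map hl0]
  refine eLpNorm_mono_measure f ?_
  have h2 : ENNReal.ofReal (l ^ 3)⁻¹ ≤ 1 := by
    rw [ENNReal.ofReal_le_one]
    exact inv_le_one_of_one_le₀ (one_le_pow₀ hl)
  refine Measure.le_iff.2 fun s _ => ?_
  rw [Measure.smul_apply, smul_eq_mul]
  calc ENNReal.ofReal (l ^ 3)⁻¹ * volume s ≤ 1 * volume s := by gcongr
    _ = _ := one_mul _

theorem dil_qmp {l : ℝ} (hl : 0 < l) :
    Measure.QuasiMeasurePreserving (fun x : E3 => l • x) volume volume := by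
  refine ⟨(dil_emb hl).measurable, ?_⟩
  rw [dil_map hl]
  exact Measure.smul_absolutelyContinuous

theorem dil_memLp {F : Type*} [NormedAddCommGroup F] {l : ℝ} (hl : 1 ≤ l) {f : E3 → F} {p : ℝ≥0∞}
    (hf : MemLp f p volume) : MemLp (fun x => f (l • x)) p volume :=
  ⟨hf.1.comp_quasiMeasurePreserving (dil_qmp (by linarith)), (dil_eLp hl f p).trans_lt hf.2⟩

theorem dil_integral {l : ℝ} (hl : 0 < l) (f : E3 → ℝ) :
    ∫ x, f (l • x) = (l ^ 3)⁻¹ * ∫ x, f x := by
  have h := Measure.integral_comp_smul (volume : Measure E3) f l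
  have hfin : Module.finrank ℝ E3 = 3 := by simp
  rw [hfin, abs_of_nonneg (by positivity)] at h
  simpa using h

theorem grad_dil {φ : E3 → ℝ} (h : Sm φ) (l : ℝ) (x : E3) :
    gradient (fun y => φ (l • y)) x = l • gradient φ (l • x) := by
  have h1 : HasFDerivAt (fun y : E3 => l • y) (l • ContinuousLinearMap.id ℝ E3) x :=
    (l • ContinuousLinearMap.id ℝ E3).hasFDerivAt
  have h2 : HasFDerivAt φ (fderiv ℝ φ (l • x)) (l • x) :=
    ((h.differentiable (by simp)) _).hasFDerivAt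
  have h3 : HasFDerivAt (fun y => φ (l • y))
      ((fderiv ℝ φ (l • x)).comp (l • ContinuousLinearMap.id ℝ E3)) x := h2.comp x h1
  have h4 : (fderiv ℝ φ (l • x)).comp (l • ContinuousLinearMap.id ℝ E3)
      = l • fderiv ℝ φ (l • x) := by
    ext v; simp
  unfold gradient
  rw [h3.fderiv, h4, map_smul]

theorem dil_smooth {φ : E3 → ℝ} (h : Sm φ) (l : ℝ) : Sm (fun y => φ (l • y)) :=
  h.comp (contDiff_id.const_smul l)

theorem dil_cpt {φ : E3 → ℝ} (hc : HasCompactSupport φ) {l : ℝ} (hl : 0 < l) :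
    HasCompactSupport (fun y : E3 => φ (l • y)) :=
  hc.comp_homeomorph (Homeomorph.smulOfNeZero l hl.ne')

theorem dil_supp {φ : E3 → ℝ} {l : ℝ} {Ω : Set E3} (hΩ : ∀ x, l • x ∈ Ω → x ∈ Ω)
    (hs : tsupport φ ⊆ Ω) : tsupport (fun y : E3 => φ (l • y)) ⊆ Ω := by
  intro x hx
  apply hΩ
  apply hs
  have h1 : tsupport (fun y : E3 => φ (l • y)) ⊆ (fun y : E3 => l • y) ⁻¹' tsupport φ := by
    apply closure_minimal
    · intro y hy
      exact subset_tsupport _ hy
    · exact (isClosed_tsupport φ).preimage (continuous_const_smul l)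
  exact h1 hx

theorem Lim.dil {Ω : Set E3} {ψ : ℕ → E3 → ℝ} {w : E3 → ℝ} {W : E3 → E3}
    (L : Lim Ω ψ w W) {l : ℝ} (hl : 1 ≤ l) (hΩ : ∀ x, l • x ∈ Ω → x ∈ Ω) :
    Lim Ω (fun n x => ψ n (l • x)) (fun x => w (l • x)) (fun x => l • W (l • x)) where
  smooth := fun n => dil_smooth (L.smooth n) l
  cpt := fun n => dil_cpt (L.cpt n) (by linarith)
  supp := fun n => dil_supp hΩ (L.supp n)
  hw := dil_memLp hl L.hw
  hW := (dil_memLp hl L.hW).const_smul l
  lim0 := by
    refine tendsto_of_tendsto_of_tendsto_of_le_of_le tendsto_const_nhds L.lim0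
      (fun _ => zero_le) (fun n => ?_)
    exact dil_eLp hl (fun x => ψ n x - w x) 2
  lim1 := by
    have h1 : ∀ n, eLpNorm (fun x => gradient (fun y => ψ n (l • y)) x - l • W (l • x)) 2 volume
        ≤ ENNReal.ofReal l * eLpNorm (fun x => gradient (ψ n) x - W x) 2 volume := by
      intro n
      have e : (fun x => gradient (fun y => ψ n (l • y)) x - l • W (l • x))
        = l • (fun x => gradient (ψ n) (l • x) - W (l • x)) := by
          funext x
          rw [grad_dil (L.smooth n), Pi.smul_apply, smul_sub]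
      rw [e, eLpNorm_const_smul]
      have : ‖l‖ₑ = ENNReal.ofReal l := by
        rw [Real.enorm_eq_ofReal (by linarith)]
      rw [this]
      gcongr
      exact dil_eLp hl (fun x => gradient (ψ n) x - W x) 2
    have h2 := ENNReal.Tendsto.const_mul L.lim1 (Or.inr (ENNReal.ofReal_ne_top (r := l)))
    rw [mul_zero] at h2
    exact tendsto_of_tendsto_of_tendsto_of_le_of_le tendsto_const_nhds h2
      (fun _ => zero_le) h1

theorem cs_int (g : ℝ → ℝ) (hg : Continuous g) {a b : ℝ} (hab : a ≤ b) :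
    (∫ t in a..b, g t) ^ 2 ≤ (b - a) * ∫ t in a..b, g t ^ 2 := by
  rcases eq_or_lt_of_le hab with h | h
  · subst h; simp
  · set I := ∫ t in a..b, g t
    set m := I / (b - a) with hm
    have hba : 0 < b - a := by linarith
    have h0 : 0 ≤ ∫ t in a..b, (g t - m) ^ 2 :=
      intervalIntegral.integral_nonneg hab fun t _ => sq_nonneg _
    have h1 : ∫ t in a..b, (g t - m) ^ 2
        = (∫ t in a..b, g t ^ 2) - 2 * m * I + m ^ 2 * (b - a) := by
      have e : ∀ t, (g t - m) ^ 2 = (g t ^ 2 - (2 * m) * g t) + m ^ 2 := fun t => by ring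
      simp only [e]
      have c1 : IntervalIntegrable (fun t => g t ^ 2) volume a b :=
        (hg.pow 2).intervalIntegrable a b
      have c2 : IntervalIntegrable (fun t => (2 * m) * g t) volume a b :=
        (hg.const_mul (2 * m) : Continuous fun t => (2 * m) * g t).intervalIntegrable a b
      rw [intervalIntegral.integral_add (c1.sub c2) (by simp),
        intervalIntegral.integral_sub c1 c2, intervalIntegral.integral_const_mul,
        intervalIntegral.integral_const]
      simp only [smul_eq_mul]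
      ring
    rw [h1] at h0
    have h2 : I = m * (b - a) := by rw [hm]; field_simp
    have h3 : I ^ 2 = (b - a) * (2 * m * I - m ^ 2 * (b - a)) := by
      rw [h2]; ring
    rw [h3]
    apply mul_le_mul_of_nonneg_left _ hba.le
    linarith

theorem sm_ftc {φ : E3 → ℝ} (h : Sm φ) {l : ℝ} (hl : 1 ≤ l) (x : E3) :
    (‖x‖⁻¹ * (φ (l • x) - φ x)) ^ 2 ≤ (l - 1) * ∫ t in (1:ℝ)..l, ‖gradient φ (t • x)‖ ^ 2 := by
  have hI : 0 ≤ ∫ t in (1:ℝ)..l, ‖gradient φ (t • x)‖ ^ 2 :=
    intervalIntegral.integral_nonneg hl fun t _ => by positivity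
  have hd : Continuous (fderiv ℝ φ) := h.continuous_fderiv (by simp)
  have hc : Continuous fun t : ℝ => fderiv ℝ φ (t • x) x :=
    (hd.comp (continuous_id.smul continuous_const)).clm_apply continuous_const
  have hgc : Continuous fun t : ℝ => ‖gradient φ (t • x)‖ ^ 2 :=
    ((Sm.grad_cont h).comp (continuous_id.smul continuous_const)).norm.pow 2
  have h1 : ∀ t : ℝ, HasDerivAt (fun s : ℝ => φ (s • x)) (fderiv ℝ φ (t • x) x) t := by
    intro t
    have a1 : HasFDerivAt φ (fderiv ℝ φ (t • x)) (t • x) :=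
      ((h.differentiable (by simp)) _).hasFDerivAt
    have a2 : HasDerivAt (fun s : ℝ => s • x) x t := by
      simpa using (hasDerivAt_id t).smul_const x
    exact a1.comp_hasDerivAt t a2
  have h2 : φ (l • x) - φ x = ∫ t in (1:ℝ)..l, fderiv ℝ φ (t • x) x := by
    have := intervalIntegral.integral_eq_sub_of_hasDerivAt (f := fun s : ℝ => φ (s • x))
      (f' := fun t => fderiv ℝ φ (t • x) x) (a := 1) (b := l) (fun t _ => h1 t)
      (hc.intervalIntegrable _ _)
    simp only [one_smul] at this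
    exact this.symm
  have h3 := cs_int _ hc hl
  rw [← h2] at h3
  have h4 : ∫ t in (1:ℝ)..l, (fderiv ℝ φ (t • x) x) ^ 2
      ≤ ∫ t in (1:ℝ)..l, ‖x‖ ^ 2 * ‖gradient φ (t • x)‖ ^ 2 := by
    apply intervalIntegral.integral_mono_on hl ((hc.pow 2).intervalIntegrable _ _)
      ((hgc.const_mul _ : Continuous fun t : ℝ => ‖x‖ ^ 2 * ‖gradient φ (t • x)‖ ^ 2).intervalIntegrable _ _)
    intro t _
    have := (fderiv ℝ φ (t • x)).le_opNorm x
    show (fderiv ℝ φ (t • x) x) ^ 2 ≤ ‖x‖ ^ 2 * ‖gradient φ (t • x)‖ ^ 2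
    rw [norm_grad, ← mul_pow, ← sq_abs (fderiv ℝ φ (t • x) x), mul_comm ‖x‖]
    rw [Real.norm_eq_abs] at this
    gcongr
  rw [intervalIntegral.integral_const_mul] at h4
  by_cases hx : x = 0
  · subst hx
    simp only [norm_zero, inv_zero, zero_mul]
    have : 0 ≤ (l - 1) * ∫ t in (1:ℝ)..l, ‖gradient φ (t • (0:E3))‖ ^ 2 :=
      mul_nonneg (by linarith) hI
    simpa using this
  · have hn : 0 < ‖x‖ := norm_pos_iff.2 hx
    rw [mul_pow]
    have h5 : (φ (l • x) - φ x) ^ 2 ≤ (l - 1) * (‖x‖ ^ 2 * ∫ t in (1:ℝ)..l, ‖gradient φ (t • x)‖ ^ 2) :=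
      h3.trans (mul_le_mul_of_nonneg_left h4 (by linarith))
    have h6 : ‖x‖⁻¹ ^ 2 * (φ (l • x) - φ x) ^ 2
        ≤ ‖x‖⁻¹ ^ 2 * ((l - 1) * (‖x‖ ^ 2 * ∫ t in (1:ℝ)..l, ‖gradient φ (t • x)‖ ^ 2)) := by
      gcongr
    refine h6.trans (le_of_eq ?_)
    field_simp

theorem sm_dil_bound {φ : E3 → ℝ} (h : Sm φ) (hc : HasCompactSupport φ) {l : ℝ} (hl : 1 ≤ l) :
    eLpNorm (fun x => ‖x‖⁻¹ * (φ (l • x) - φ x)) 2 volume
      ≤ ENNReal.ofReal (l - 1) * eLpNorm (gradient φ) 2 volume := by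
  have hl0 : 0 < l := by linarith
  have hG : MemLp (gradient φ) 2 volume := Sm.grad_memLp h hc 2
  have hSm : Sm (fun x => φ (l • x) - φ x) := (dil_smooth h l).sub h
  have hcp : HasCompactSupport (fun x => φ (l • x) - φ x) := by
    have : (fun x => φ (l • x) - φ x) = (fun x => φ (l • x)) + (-φ) := by
      funext x; simp [sub_eq_add_neg]
    rw [this]
    exact (dil_cpt hc hl0).add hc.neg
  have hL : MemLp (fun x => ‖x‖⁻¹ * (φ (l • x) - φ x)) 2 volume := by
    refine ⟨(measurable_norm.inv.mul hSm.continuous.measurable).aestronglyMeasurable, ?_⟩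
    exact (hardyS _ hSm hcp).trans_lt
      (ENNReal.mul_lt_top (by simp) (hSm.grad_memLp hcp 2).2)
  have k1 := eLp_pow (fun x => ‖x‖⁻¹ * (φ (l • x) - φ x)) 2 (by norm_num) (by exact_mod_cast hL)
  have k2 := eLp_pow (gradient φ) 2 (by norm_num) (by exact_mod_cast hG)
  have iL : Integrable fun x => ‖‖x‖⁻¹ * (φ (l • x) - φ x)‖ ^ 2 :=
    eLp_int _ 2 (by norm_num) (by exact_mod_cast hL)
  have iGr : Integrable fun x => ‖gradient φ x‖ ^ 2 := iG hG
  have hmain : ∫ x, ‖‖x‖⁻¹ * (φ (l • x) - φ x)‖ ^ 2 ≤ (l - 1) ^ 2 * ∫ x, ‖gradient φ x‖ ^ 2 := by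
    have hR0 : 0 ≤ (l - 1) ^ 2 * ∫ x, ‖gradient φ x‖ ^ 2 :=
      mul_nonneg (sq_nonneg _) (integral_nonneg fun x => by positivity)
    rw [← ENNReal.ofReal_le_ofReal_iff hR0,
      ofReal_integral_eq_lintegral_ofReal iL (Eventually.of_forall fun x => by positivity)]
    have hF : Continuous fun p : E3 × ℝ => ENNReal.ofReal (‖gradient φ (p.2 • p.1)‖ ^ 2) :=
      ENNReal.continuous_ofReal.comp
        ((((Sm.grad_cont h).comp (continuous_snd.smul continuous_fst)).norm).pow 2)
    calc ∫⁻ x, ENNReal.ofReal (‖‖x‖⁻¹ * (φ (l • x) - φ x)‖ ^ 2)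
        ≤ ∫⁻ x, ENNReal.ofReal (l - 1) *
            ∫⁻ t in Set.Ioc 1 l, ENNReal.ofReal (‖gradient φ (t • x)‖ ^ 2) := by
          refine lintegral_mono fun x => ?_
          have hgc : Continuous fun t : ℝ => ‖gradient φ (t • x)‖ ^ 2 :=
            ((Sm.grad_cont h).comp (continuous_id.smul continuous_const)).norm.pow 2
          have e1 := sm_ftc h hl x
          have e2 : ∫⁻ t in Set.Ioc 1 l, ENNReal.ofReal (‖gradient φ (t • x)‖ ^ 2)
              = ENNReal.ofReal (∫ t in (1:ℝ)..l, ‖gradient φ (t • x)‖ ^ 2) := by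
            rw [intervalIntegral.integral_of_le hl]
            refine (ofReal_integral_eq_lintegral_ofReal ?_
              (Eventually.of_forall fun t => by positivity)).symm
            exact (hgc.intervalIntegrable 1 l).1
          rw [e2, ← ENNReal.ofReal_mul (by linarith)]
          apply ENNReal.ofReal_le_ofReal
          rw [Real.norm_eq_abs, sq_abs]
          exact e1
      _ = ENNReal.ofReal (l - 1) *
            ∫⁻ x : E3, ∫⁻ t in Set.Ioc 1 l, ENNReal.ofReal (‖gradient φ (t • x)‖ ^ 2) := by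
          rw [lintegral_const_mul']
          exact ENNReal.ofReal_ne_top
      _ = ENNReal.ofReal (l - 1) *
            ∫⁻ t in Set.Ioc 1 l, ∫⁻ x : E3, ENNReal.ofReal (‖gradient φ (t • x)‖ ^ 2) := by
          rw [lintegral_lintegral_swap]
          exact hF.measurable.aemeasurable
      _ ≤ ENNReal.ofReal (l - 1) *
            ∫⁻ _t in Set.Ioc 1 l, ∫⁻ x : E3, ENNReal.ofReal (‖gradient φ x‖ ^ 2) := by
          gcongr ENNReal.ofReal (l - 1) * ?_
          refine setLIntegral_mono' measurableSet_Ioc fun t ht => ?_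
          exact dil_lint ht.1.le (fun x => ENNReal.ofReal (‖gradient φ x‖ ^ 2))
      _ = ENNReal.ofReal ((l - 1) ^ 2 * ∫ x, ‖gradient φ x‖ ^ 2) := by
          rw [lintegral_const, Measure.restrict_apply MeasurableSet.univ, Set.univ_inter,
            Real.volume_Ioc, ← ofReal_integral_eq_lintegral_ofReal iGr
              (Eventually.of_forall fun x => by positivity), mul_comm, mul_assoc,
            ← ENNReal.ofReal_mul (by linarith), ← ENNReal.ofReal_mul
              (integral_nonneg fun x => by positivity)]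
          congr 1
          ring
  rw [k1, k2] at hmain
  have h5 : (eLpNorm (fun x => ‖x‖⁻¹ * (φ (l • x) - φ x)) 2 volume).toReal
      ≤ (l - 1) * (eLpNorm (gradient φ) 2 volume).toReal := by
    have a1 : 0 ≤ (eLpNorm (gradient φ) 2 volume).toReal := ENNReal.toReal_nonneg
    refine (abs_le_of_sq_le_sq' ?_ (mul_nonneg (by linarith) a1)).2
    rw [mul_pow]
    exact_mod_cast hmain
  have h6 : (l - 1) * (eLpNorm (gradient φ) 2 volume).toReal
      = (ENNReal.ofReal (l - 1) * eLpNorm (gradient φ) 2 volume).toReal := by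
    rw [ENNReal.toReal_mul, ENNReal.toReal_ofReal (by linarith)]
  rw [h6] at h5
  exact (ENNReal.toReal_le_toReal hL.2.ne (ENNReal.mul_ne_top (by simp) hG.2.ne)).1 h5

theorem Lim.dil_bound {Ω : Set E3} {ψ : ℕ → E3 → ℝ} {w : E3 → ℝ} {W : E3 → E3}
    (L : Lim Ω ψ w W) {l : ℝ} (hl : 1 ≤ l) (hΩ : ∀ x, l • x ∈ Ω → x ∈ Ω) :
    eLpNorm (fun x => ‖x‖⁻¹ * (w (l • x) - w x)) 2 volume
      ≤ ENNReal.ofReal (l - 1) * eLpNorm W 2 volume := by
  have LD := (L.dil hl hΩ).sub L
  obtain ⟨ns, hns, hae⟩ := LD.subseq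
  refine fatou hns (fun n => (LD.smooth n).continuous.aestronglyMeasurable) hae
    (fun x => ‖x‖⁻¹) measurable_norm.inv 2
    (fun n => ENNReal.ofReal (l - 1) *
      (eLpNorm (fun x => gradient (ψ n) x - W x) 2 volume + eLpNorm W 2 volume)) _ ?_ ?_
  · intro n
    refine (sm_dil_bound (L.smooth n) (L.cpt n) hl).trans ?_
    gcongr
    have e : gradient (ψ n) = (fun x => gradient (ψ n) x - W x) + W := by
      funext x; simp
    conv_lhs => rw [e]
    exact eLpNorm_add_le (((Sm.grad_cont (L.smooth n)).aestronglyMeasurable).sub L.hW.1)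
      L.hW.1 (by norm_num)
  · have h1 := (L.lim1.add_const (eLpNorm W 2 volume))
    rw [zero_add] at h1
    exact ENNReal.Tendsto.const_mul h1 (Or.inr ENNReal.ofReal_ne_top)

end Pool.Agent.N263.HS
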