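import Mathlib
import Pool.Agent.N263.HS.Dil

set_option autoImplicit false

noncomputable section

open MeasureTheory Filter Topology
open scoped ENNReal

namespace Pool.Agent.N263.HS

theorem ht632 : ENNReal.HolderTriple 6 3 2 := by
  refine ENNReal.HolderTriple.of_toReal ?_
  norm_num
  constructor <;> norm_num

theorem ht663 : ENNReal.HolderTriple 6 6 3 := by
  refine ENNReal.HolderTriple.of_toReal ?_
  norm_num
  constructor <;> norm_num

theorem ht221 : ENNReal.HolderTriple 2 2 1 := by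
  refine ENNReal.HolderTriple.of_toReal ?_
  norm_num
  constructor <;> norm_num

theorem holder3a {w r : E3 → ℝ} (hw : MemLp w 6 volume)
    (hr : MemLp r 3 volume) : MemLp (w * r) 2 volume := MemLp.mul (hpqr := ht632) hr hw

theorem holder3b {w r : E3 → ℝ} (hw : MemLp w 2 volume)
    (hr : MemLp r 2 volume) : MemLp (w * r) 1 volume := MemLp.mul (hpqr := ht221) hr hw

theorem holder_gen {w r : E3 → ℝ} {p q s : ℝ≥0∞} (h : ENNReal.HolderTriple p q s) (hw : MemLp w p volume)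
    (hr : MemLp r q volume) : eLpNorm (w * r) s volume ≤ eLpNorm w p volume * eLpNorm r q volume := by
  have := eLpNorm_smul_le_mul_eLpNorm (hpqr := h) hr.1 hw.1
  have e : w • r = w * r := rfl
  rwa [e] at this

theorem holder3c {w r : E3 → ℝ} (hw : MemLp w 6 volume)
    (hr : MemLp r 3 volume) : eLpNorm (w * r) 2 volume ≤ eLpNorm w 6 volume * eLpNorm r 3 volume :=
    holder_gen ht632 hw hr

theorem holder3d {w r : E3 → ℝ} (hw : MemLp w 2 volume)
    (hr : MemLp r 2 volume) : eLpNorm (w * r) 1 volume ≤ eLpNorm w 2 volume * eLpNorm r 2 volume :=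
    holder_gen ht221 hw hr

/-- `∫ |f| |w r| ≤ ‖f‖₂ ‖w‖₆ ‖r‖₃`. -/
theorem holder3 {f w r : E3 → ℝ} (hf : MemLp f 2 volume) (hw : MemLp w 6 volume)
    (hr : MemLp r 3 volume) :
    Integrable (fun x => f x * (w x * r x)) ∧
    ∫ x, |f x * (w x * r x)|
      ≤ (eLpNorm f 2 volume * (eLpNorm w 6 volume * eLpNorm r 3 volume)).toReal := by
  have h1 : MemLp (w * r) 2 volume := holder3a hw hr
  have h2 : MemLp (f * (w * r)) 1 volume := holder3b hf h1
  have h3 : eLpNorm (w * r) 2 volume ≤ eLpNorm w 6 volume * eLpNorm r 3 volume := holder3c hw hr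
  have h4 : eLpNorm (f * (w * r)) 1 volume
      ≤ eLpNorm f 2 volume * (eLpNorm w 6 volume * eLpNorm r 3 volume) :=
    (holder3d hf h1).trans (mul_le_mul_right h3 _)
  have hi : Integrable (f * (w * r)) volume := memLp_one_iff_integrable.1 h2
  refine ⟨hi, ?_⟩
  have h5 : ∫ x, |f x * (w x * r x)| = (eLpNorm (f * (w * r)) 1 volume).toReal := by
    rw [eLpNorm_one_eq_lintegral_enorm]
    exact integral_norm_eq_lintegral_enorm hi.1
  have h6 : eLpNorm f 2 volume * (eLpNorm w 6 volume * eLpNorm r 3 volume) ≠ ∞ :=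
    ENNReal.mul_ne_top hf.2.ne (ENNReal.mul_ne_top hw.2.ne hr.2.ne)
  rw [h5]
  exact ENNReal.toReal_mono h6 h4

theorem trunc {u : E3 → ℝ} (hu : MemLp u 6 volume) {ε : ℝ} (hε : 0 < ε) :
    ∃ (M : ℝ) (r : E3 → ℝ), 0 < M ∧ MemLp r 3 volume ∧ (∀ x, 0 ≤ r x) ∧
      (∀ x, u x ^ 2 ≤ M + r x) ∧ eLpNorm r 3 volume ≤ ENNReal.ofReal ε := by
  have h2 : MemLp (u * u) 3 volume := MemLp.mul (hpqr := ht663) hu hu
  set f := u * u with hf
  set f' := h2.1.mk f with hf'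
  have hae : f =ᵐ[volume] f' := h2.1.ae_eq_mk
  have h2' : MemLp f' 3 volume := (memLp_congr_ae hae).1 h2
  obtain ⟨M, hM, hMe⟩ := h2'.eLpNorm_indicator_norm_ge_pos_le h2.1.stronglyMeasurable_mk hε
  have hc : ({x | M ≤ ‖f x‖₊}.indicator f) =ᵐ[volume] ({x | M ≤ ‖f' x‖₊}.indicator f') := by
    filter_upwards [hae] with x hx
    by_cases h : M ≤ ‖f x‖₊
    · rw [Set.indicator_of_mem (by exact h), Set.indicator_of_mem]
      · exact hx
      · show M ≤ ‖f' x‖₊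
        rw [← hx]; exact h
    · rw [Set.indicator_of_notMem (by exact h), Set.indicator_of_notMem]
      show ¬ (M ≤ ‖f' x‖₊)
      rw [← hx]; exact h
  have hmeas : MemLp ({x | M ≤ ‖f x‖₊}.indicator f) 3 volume := by
    refine (memLp_congr_ae hc).2 (h2'.indicator ?_)
    exact measurableSet_le measurable_const h2.1.stronglyMeasurable_mk.nnnorm.measurable.coe_nnreal_real
  refine ⟨M, {x | M ≤ ‖f x‖₊}.indicator f, hM, hmeas, ?_, ?_, ?_⟩
  · intro x
    apply Set.indicator_nonneg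
    intro y _
    simp only [hf, Pi.mul_apply]
    exact mul_self_nonneg _
  · intro x
    have h0 : u x ^ 2 = f x := by simp only [hf, Pi.mul_apply]; ring
    have h00 : 0 ≤ f x := by rw [← h0]; positivity
    by_cases h : M ≤ ‖f x‖₊
    · rw [Set.indicator_of_mem (by exact h), h0]; linarith
    · rw [Set.indicator_of_notMem (by exact h), h0, add_zero]
      rw [not_le] at h
      have : ((‖f x‖₊ : NNReal) : ℝ) = f x := by
        rw [coe_nnnorm, Real.norm_eq_abs, abs_of_nonneg h00]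
      rw [this] at h
      exact h.le
  · rw [eLpNorm_congr_ae hc]
    exact hMe

theorem pt_ineq (g V : E3) (u v h : ℝ) (hu : 0 ≤ u) (hv : 0 ≤ v) (hh : 0 ≤ h) :
    inner ℝ g (V - g) + u ^ 4 * (v - u) - u ^ 3 * (h * (v - u))
      ≤ 1 / 2 * (‖V‖ ^ 2 - ‖g‖ ^ 2 - ‖V - g‖ ^ 2) + 1 / 5 * (v ^ 5 - u ^ 5)
        - 1 / 4 * (v ^ 3 * (h * v) - u ^ 3 * (h * u))
        + (h * (v - u)) * ((v - u) * (u ^ 2 + v ^ 2)) := by
  have e1 : inner ℝ g (V - g) = 1 / 2 * (‖V‖ ^ 2 - ‖g‖ ^ 2 - ‖V - g‖ ^ 2) := by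
    have : ‖V‖ ^ 2 = ‖(V - g) + g‖ ^ 2 := by simp
    rw [this, norm_add_sq_real, real_inner_comm]
    ring
  have e2 : u ^ 4 * (v - u) ≤ 1 / 5 * (v ^ 5 - u ^ 5) := by
    have : 1 / 5 * (v ^ 5 - u ^ 5) - u ^ 4 * (v - u)
        = 1 / 5 * ((v - u) ^ 2 * (v ^ 3 + 2 * u * v ^ 2 + 3 * u ^ 2 * v + 4 * u ^ 3)) := by ring
    have h0 : 0 ≤ 1 / 5 * ((v - u) ^ 2 * (v ^ 3 + 2 * u * v ^ 2 + 3 * u ^ 2 * v + 4 * u ^ 3)) := by
      positivity
    linarith
  have e3 : - (u ^ 3 * (h * (v - u))) ≤ - (1 / 4 * (v ^ 3 * (h * v) - u ^ 3 * (h * u)))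
        + (h * (v - u)) * ((v - u) * (u ^ 2 + v ^ 2)) := by
    have : - (1 / 4 * (v ^ 3 * (h * v) - u ^ 3 * (h * u)))
        + (h * (v - u)) * ((v - u) * (u ^ 2 + v ^ 2)) - (- (u ^ 3 * (h * (v - u))))
        = h * ((v - u) ^ 2 * (1 / 4 * (2 * v ^ 2 + (u - v) ^ 2))) := by ring
    have h0 : 0 ≤ h * ((v - u) ^ 2 * (1 / 4 * (2 * v ^ 2 + (u - v) ^ 2))) := by
      positivity
    linarith
  rw [e1]
  linarith

theorem i5 {u : E3 → ℝ} (hu : Good u) : Integrable fun x => u x ^ 5 := by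
  refine (hu.i2.add hu.i6).mono' (hu.two.1.pow 5) (Eventually.of_forall fun x => ?_)
  simp only [Real.norm_eq_abs, abs_pow, Pi.add_apply]
  have e1 : u x ^ 2 = |u x| ^ 2 := (sq_abs _).symm
  have e2 : u x ^ 6 = |u x| ^ 6 := by
    have : u x ^ 6 = (u x ^ 2) ^ 3 := by ring
    rw [this, e1]; ring
  rw [e1, e2]
  have h0 := abs_nonneg (u x)
  rcases le_or_gt |u x| 1 with h | h
  · have : |u x| ^ 5 ≤ |u x| ^ 2 := pow_le_pow_of_le_one h0 h (by norm_num)
    have : 0 ≤ |u x| ^ 6 := by positivity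
    linarith
  · have : |u x| ^ 5 ≤ |u x| ^ 6 := pow_le_pow_right₀ h.le (by norm_num)
    have : 0 ≤ |u x| ^ 2 := by positivity
    linarith

theorem iB {u : E3 → ℝ} (hu : Good u) : Integrable fun x => u x ^ 3 * (‖x‖⁻¹ * u x) := by
  refine (hu.i6.add hu.ih).mono' ((hu.two.1.pow 3).mul hu.har.1) (Eventually.of_forall fun x => ?_)
  simp only [Real.norm_eq_abs, Pi.add_apply]
  have := young_c (u x) (‖x‖⁻¹ * u x) 1 one_pos le_rfl
  simpa using this

theorem iR {u v w : E3 → ℝ} (hu : Good u) (hv : Good v) (hw : Good w) :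
    Integrable fun x => (‖x‖⁻¹ * w x) * (w x * (u x ^ 2 + v x ^ 2)) := by
  have h1 : MemLp (fun x => u x ^ 2 + v x ^ 2) 3 volume := by
    have a1 : MemLp (u * u) 3 volume := MemLp.mul (hpqr := ht663) hu.six hu.six
    have a2 : MemLp (v * v) 3 volume := MemLp.mul (hpqr := ht663) hv.six hv.six
    refine (memLp_congr_ae (Eventually.of_forall fun x => ?_)).1 (a1.add a2)
    simp only [Pi.add_apply, Pi.mul_apply]; ring
  exact (holder3 hw.har hw.six h1).1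

/-- Bound on the remainder. -/
theorem rem_bound {Ω : Set E3} {φ : ℕ → E3 → ℝ} {u : E3 → ℝ} {G : E3 → E3}
    (Lu : Lim Ω φ u G) (hb : ∀ x ∈ Ω, ‖x‖ ≤ 2)
    (hΩ : ∀ l : ℝ, 1 ≤ l → ∀ x, l • x ∈ Ω → x ∈ Ω) :
    ∃ C : ℝ, 0 ≤ C ∧ ∀ l : ℝ, 1 ≤ l →
      ∫ x, (‖x‖⁻¹ * (u (l • x) - u x)) * ((u (l • x) - u x) * (u x ^ 2 + u (l • x) ^ 2))
        ≤ C * (l - 1) ^ 2 + 1 / 2 * ∫ x, ‖l • G (l • x) - G x‖ ^ 2 := by
  set S : ℝ := SC.toReal with hS
  have hS0 : 0 ≤ S := ENNReal.toReal_nonneg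
  obtain ⟨M, r, hM, hr3, hr0, hur, hre⟩ := trunc Lu.mem6 (ε := 1 / (8 * (S + 1))) (by positivity)
  refine ⟨4 * M * ∫ x, ‖G x‖ ^ 2, by
    have : 0 ≤ ∫ x, ‖G x‖ ^ 2 := integral_nonneg fun x => by positivity
    positivity, ?_⟩
  intro l hl
  have hl0 : 0 < l := by linarith
  have Lv := Lu.dil hl (hΩ l hl)
  have Lw := Lv.sub Lu
  set w : E3 → ℝ := fun x => u (l • x) - u x with hw
  set W : E3 → E3 := fun x => l • G (l • x) - G x with hWd
  have hrl : MemLp (fun x => r (l • x)) 3 volume := dil_memLp hl hr3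
  have hrs : MemLp (fun x => r x + r (l • x)) 3 volume := hr3.add hrl
  obtain ⟨i3, b3⟩ := holder3 Lw.good.har Lw.good.six hrs
  -- the size of the third factor
  have hrs' : eLpNorm (fun x => r x + r (l • x)) 3 volume
      ≤ ENNReal.ofReal (1 / (4 * (S + 1))) := by
    have e : (fun x => r x + r (l • x)) = r + (fun x => r (l • x)) := rfl
    rw [e]
    refine (eLpNorm_add_le hr3.1 hrl.1 (by norm_num)).trans ?_
    have h1 := (dil_eLp hl r 3).trans hre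
    refine (add_le_add hre h1).trans (le_of_eq ?_)
    rw [← ENNReal.ofReal_add (by positivity) (by positivity)]
    congr 1
    field_simp; norm_num
  have hWn : (eLpNorm W 2 volume).toReal ^ 2 = ∫ x, ‖W x‖ ^ 2 :=
    (eLp_pow W 2 (by norm_num) (by exact_mod_cast Lw.hW)).symm
  have key1 : ∫ x, |(‖x‖⁻¹ * w x) * (w x * (r x + r (l • x)))| ≤ 1 / 2 * ∫ x, ‖W x‖ ^ 2 := by
    refine b3.trans ?_
    have hne : (2 * eLpNorm W 2 volume * (SC * eLpNorm W 2 volume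
        * ENNReal.ofReal (1 / (4 * (S + 1))))) ≠ ∞ :=
      ENNReal.mul_ne_top (ENNReal.mul_ne_top (by simp) Lw.hW.2.ne)
        (ENNReal.mul_ne_top (ENNReal.mul_ne_top SC_ne Lw.hW.2.ne) ENNReal.ofReal_ne_top)
    have h1 : eLpNorm (fun x => ‖x‖⁻¹ * w x) 2 volume
        * (eLpNorm w 6 volume * eLpNorm (fun x => r x + r (l • x)) 3 volume)
        ≤ (2 * eLpNorm W 2 volume * (SC * eLpNorm W 2 volume
        * ENNReal.ofReal (1 / (4 * (S + 1))))) := by
      have a1 := Lw.har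
      have a2 := Lw.six
      gcongr
    refine (ENNReal.toReal_mono hne h1).trans ?_
    rw [ENNReal.toReal_mul, ENNReal.toReal_mul, ENNReal.toReal_mul, ENNReal.toReal_mul,
      ENNReal.toReal_ofReal (by positivity), ← hWn, ← hS]
    have e : ENNReal.toReal 2 = 2 := by simp
    rw [e]
    have h2 : S * (1 / (4 * (S + 1))) ≤ 1 / 4 := by
      rw [mul_one_div, div_le_div_iff₀ (by positivity) (by norm_num)]
      nlinarith
    nlinarith [sq_nonneg (eLpNorm W 2 volume).toReal]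
  have key2 : ∫ x, (‖x‖⁻¹ * w x) ^ 2 ≤ (l - 1) ^ 2 * ∫ x, ‖G x‖ ^ 2 := by
    have h1 := Lu.dil_bound hl (hΩ l hl)
    have h2 := eLp_pow (fun x => ‖x‖⁻¹ * w x) 2 (by norm_num) (by exact_mod_cast Lw.good.har)
    have h3 := eLp_pow G 2 (by norm_num) (by exact_mod_cast Lu.hW)
    simp only [Real.norm_eq_abs, sq_abs] at h2
    rw [h2, h3, ← mul_pow]
    gcongr
    have h4 : (eLpNorm (fun x => ‖x‖⁻¹ * w x) 2 volume).toReal
        ≤ (ENNReal.ofReal (l - 1) * eLpNorm G 2 volume).toReal :=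
      ENNReal.toReal_mono (ENNReal.mul_ne_top ENNReal.ofReal_ne_top Lu.hW.2.ne) h1
    rw [ENNReal.toReal_mul, ENNReal.toReal_ofReal (by linarith)] at h4
    exact_mod_cast h4
  have i2 : Integrable fun x => (‖x‖⁻¹ * w x) ^ 2 := Lw.good.ih
  have hzero := Lw.zero_off
  calc ∫ x, (‖x‖⁻¹ * w x) * (w x * (u x ^ 2 + u (l • x) ^ 2))
      ≤ ∫ x, (4 * M * (‖x‖⁻¹ * w x) ^ 2 + |(‖x‖⁻¹ * w x) * (w x * (r x + r (l • x)))|) := by
        refine integral_mono_ae (iR Lu.good Lv.good Lw.good) ((i2.const_mul _).add i3.abs) ?_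
        filter_upwards [hzero] with x hx
        show (‖x‖⁻¹ * w x) * (w x * (u x ^ 2 + u (l • x) ^ 2))
          ≤ 4 * M * (‖x‖⁻¹ * w x) ^ 2 + |(‖x‖⁻¹ * w x) * (w x * (r x + r (l • x)))|
        by_cases hxΩ : x ∈ Ω
        · have hn := hb x hxΩ
          have h0 : 0 ≤ ‖x‖⁻¹ := by positivity
          have h1 : ‖x‖⁻¹ ≤ 2 * ‖x‖⁻¹ ^ 2 := by
            by_cases hx0 : ‖x‖ = 0
            · rw [hx0]; simp
            · have : 0 < ‖x‖ := lt_of_le_of_ne (norm_nonneg _) (Ne.symm hx0)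
              field_simp
              linarith
          have h2 : |(‖x‖⁻¹ * w x) * (w x * (r x + r (l • x)))|
              = ‖x‖⁻¹ * w x ^ 2 * (r x + r (l • x)) := by
            have e : (‖x‖⁻¹ * w x) * (w x * (r x + r (l • x)))
              = ‖x‖⁻¹ * w x ^ 2 * (r x + r (l • x)) := by ring
            rw [e]
            apply abs_of_nonneg
            have := hr0 x
            have := hr0 (l • x)
            positivity
          rw [h2]
          have h3 := hur x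
          have h4 := hur (l • x)
          have h5 : ‖x‖⁻¹ * w x ^ 2 * (u x ^ 2 + u (l • x) ^ 2)
              ≤ ‖x‖⁻¹ * w x ^ 2 * ((M + r x) + (M + r (l • x))) := by
            gcongr
          have h6 : ‖x‖⁻¹ * w x ^ 2 * (2 * M) ≤ 2 * ‖x‖⁻¹ ^ 2 * w x ^ 2 * (2 * M) := by
            gcongr
          calc (‖x‖⁻¹ * w x) * (w x * (u x ^ 2 + u (l • x) ^ 2))
              = ‖x‖⁻¹ * w x ^ 2 * (u x ^ 2 + u (l • x) ^ 2) := by ring
            _ ≤ ‖x‖⁻¹ * w x ^ 2 * ((M + r x) + (M + r (l • x))) := h5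
            _ = ‖x‖⁻¹ * w x ^ 2 * (2 * M) + ‖x‖⁻¹ * w x ^ 2 * (r x + r (l • x)) := by ring
            _ ≤ 2 * ‖x‖⁻¹ ^ 2 * w x ^ 2 * (2 * M) + ‖x‖⁻¹ * w x ^ 2 * (r x + r (l • x)) := by
                gcongr
            _ = _ := by ring
        · have := hx hxΩ
          have hwx : w x = 0 := this
          simp [hwx]
    _ = 4 * M * (∫ x, (‖x‖⁻¹ * w x) ^ 2)
        + ∫ x, |(‖x‖⁻¹ * w x) * (w x * (r x + r (l • x)))| := by
        rw [integral_add (i2.const_mul _) i3.abs, integral_const_mul]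
    _ ≤ 4 * M * ((l - 1) ^ 2 * ∫ x, ‖G x‖ ^ 2) + 1 / 2 * ∫ x, ‖W x‖ ^ 2 := by
        gcongr
    _ = _ := by ring

theorem pohozaev {Ω : Set E3} {φ : ℕ → E3 → ℝ} {u : E3 → ℝ} {G : E3 → E3}
    (Lu : Lim Ω φ u G) (hb : ∀ x ∈ Ω, ‖x‖ ≤ 2)
    (hΩ : ∀ l : ℝ, 1 ≤ l → ∀ x, l • x ∈ Ω → x ∈ Ω)
    (hpos : ∀ᵐ x ∂(volume : Measure E3), 0 ≤ u x)
    (hweak : ∀ ψ : E3 → ℝ, Sm ψ → HasCompactSupport ψ → tsupport ψ ⊆ Ω →
      ∫ x, (inner ℝ (G x) (gradient ψ x) + u x ^ 4 * ψ x - u x ^ 3 * (‖x‖⁻¹ * ψ x)) = 0) :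
    ∫ x, u x ^ 5 ≤ 0 := by
  set a : ℝ := ∫ x, ‖G x‖ ^ 2 with ha
  set A : ℝ := ∫ x, u x ^ 5 with hA
  set B : ℝ := ∫ x, u x ^ 3 * (‖x‖⁻¹ * u x) with hB
  have gu := Lu.good
  have ia := iG Lu.hW
  have iA := i5 gu
  have iBB := iB gu
  have ha0 : 0 ≤ a := integral_nonneg fun x => by positivity
  have hA0 : 0 ≤ A := by
    refine integral_nonneg_of_ae ?_
    filter_upwards [hpos] with x hx
    show 0 ≤ u x ^ 5
    positivity
  have energy : a + A - B = 0 := by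
    have h1 := weak_ext gu Lu.hW hweak Lu
    have e : ∀ x, inner ℝ (G x) (G x) + u x ^ 4 * u x - u x ^ 3 * (‖x‖⁻¹ * u x)
        = ‖G x‖ ^ 2 + u x ^ 5 - u x ^ 3 * (‖x‖⁻¹ * u x) := by
      intro x; rw [real_inner_self_eq_norm_sq]; ring
    simp only [e] at h1
    have h2 : Integrable (fun x => ‖G x‖ ^ 2 + u x ^ 5) := ia.add iA
    rw [integral_sub h2 iBB, integral_add ia iA] at h1
    exact h1
  obtain ⟨C, hC, hR⟩ := rem_bound Lu hb hΩ
  have main : ∀ l : ℝ, 1 ≤ l → 0 ≤ 1 / 2 * (a / l - a) + 1 / 5 * ((l ^ 3)⁻¹ * A - A)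
      - 1 / 4 * ((l ^ 2)⁻¹ * B - B) + C * (l - 1) ^ 2 := by
    intro l hl
    have hl0 : 0 < l := by linarith
    have Lv := Lu.dil hl (hΩ l hl)
    have Lw := Lv.sub Lu
    have h1 := weak_ext gu Lu.hW hweak Lw
    have hposl : ∀ᵐ x ∂(volume : Measure E3), 0 ≤ u (l • x) :=
      (dil_qmp hl0).ae hpos
    have jv := iG Lv.hW
    have jw := iG Lw.hW
    have j5 := i5 Lv.good
    have jB := iB Lv.good
    have jR := iR gu Lv.good Lw.good
    have I1 : Integrable (fun x => 1 / 2 * (‖l • G (l • x)‖ ^ 2 - ‖G x‖ ^ 2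
          - ‖l • G (l • x) - G x‖ ^ 2)) := ((jv.sub ia).sub jw).const_mul _
    have I2 : Integrable (fun x => 1 / 5 * (u (l • x) ^ 5 - u x ^ 5)) := (j5.sub iA).const_mul _
    have I3 : Integrable (fun x => 1 / 4 * (u (l • x) ^ 3 * (‖x‖⁻¹ * u (l • x))
      - u x ^ 3 * (‖x‖⁻¹ * u x))) := (jB.sub iBB).const_mul _
    have I12 : Integrable (fun x => 1 / 2 * (‖l • G (l • x)‖ ^ 2 - ‖G x‖ ^ 2
          - ‖l • G (l • x) - G x‖ ^ 2) + 1 / 5 * (u (l • x) ^ 5 - u x ^ 5)) := I1.add I2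
    have I123 : Integrable (fun x => 1 / 2 * (‖l • G (l • x)‖ ^ 2 - ‖G x‖ ^ 2
          - ‖l • G (l • x) - G x‖ ^ 2) + 1 / 5 * (u (l • x) ^ 5 - u x ^ 5)
          - 1 / 4 * (u (l • x) ^ 3 * (‖x‖⁻¹ * u (l • x)) - u x ^ 3 * (‖x‖⁻¹ * u x))) :=
      I12.sub I3
    have h2 : 0 ≤ ∫ x, (1 / 2 * (‖l • G (l • x)‖ ^ 2 - ‖G x‖ ^ 2
          - ‖l • G (l • x) - G x‖ ^ 2) + 1 / 5 * (u (l • x) ^ 5 - u x ^ 5)
          - 1 / 4 * (u (l • x) ^ 3 * (‖x‖⁻¹ * u (l • x)) - u x ^ 3 * (‖x‖⁻¹ * u x))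
          + (‖x‖⁻¹ * (u (l • x) - u x)) * ((u (l • x) - u x) * (u x ^ 2 + u (l • x) ^ 2))) := by
      rw [← h1]
      refine integral_mono_ae (J_int gu Lu.hW Lw.good Lw.hW) (I123.add jR) ?_
      filter_upwards [hpos, hposl] with x hx hxl
      exact pt_ineq (G x) (l • G (l • x)) (u x) (u (l • x)) ‖x‖⁻¹ hx hxl (by positivity)
    have jvi : Integrable (fun x => ‖l • G (l • x)‖ ^ 2 - ‖G x‖ ^ 2) := jv.sub ia
    rw [integral_add I123 jR, integral_sub I12 I3, integral_add I1 I2, integral_const_mul,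
      integral_const_mul, integral_const_mul, integral_sub jvi jw, integral_sub jv ia,
      integral_sub j5 iA, integral_sub jB iBB] at h2
    have e1 : ∫ x, ‖l • G (l • x)‖ ^ 2 = a / l := by
      have h7 : ∀ x : E3, ‖l • G (l • x)‖ ^ 2 = (fun y => l ^ 2 * ‖G y‖ ^ 2) (l • x) := by
        intro x
        simp only [norm_smul, mul_pow, Real.norm_eq_abs, sq_abs]
      have h8 := dil_integral hl0 (fun y => l ^ 2 * ‖G y‖ ^ 2)
      have h9 : ∫ y, l ^ 2 * ‖G y‖ ^ 2 = l ^ 2 * a := integral_const_mul _ _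
      rw [integral_congr_ae (Eventually.of_forall h7), h8, h9]
      field_simp
    have e2 : ∫ x, u (l • x) ^ 5 = (l ^ 3)⁻¹ * A := dil_integral hl0 (fun y => u y ^ 5)
    have e3 : ∫ x : E3, u (l • x) ^ 3 * (‖x‖⁻¹ * u (l • x)) = (l ^ 2)⁻¹ * B := by
      have h7 : ∀ x : E3, u (l • x) ^ 3 * (‖x‖⁻¹ * u (l • x))
          = (fun y => l * (u y ^ 3 * (‖y‖⁻¹ * u y))) (l • x) := by
        intro x
        simp only [norm_smul, Real.norm_eq_abs, abs_of_pos hl0, mul_inv]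
        field_simp
      have h8 := dil_integral hl0 (fun y => l * (u y ^ 3 * (‖y‖⁻¹ * u y)))
      have h9 : ∫ y, l * (u y ^ 3 * (‖y‖⁻¹ * u y)) = l * B := integral_const_mul _ _
      rw [integral_congr_ae (Eventually.of_forall h7), h8, h9]
      field_simp
    rw [e1, e2, e3] at h2
    have h3 := hR l hl
    linarith
  -- conclusion
  have fin : ∀ k : ℝ, 0 < k → k ≤ 1 / 2 → A ≤ k * (10 * (A + 4 * C)) := by
    intro k hk hk2
    have hl : 1 ≤ 1 / (1 - k) := by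
      rw [le_div_iff₀ (by linarith)]; linarith
    have h1 := main (1 / (1 - k)) hl
    have hk1 : 0 < 1 - k := by linarith
    have e1 : a / (1 / (1 - k)) = a * (1 - k) := by field_simp
    have e2 : ((1 / (1 - k)) ^ 3)⁻¹ = (1 - k) ^ 3 := by
      rw [one_div, inv_pow, inv_inv]
    have e3 : ((1 / (1 - k)) ^ 2)⁻¹ = (1 - k) ^ 2 := by
      rw [one_div, inv_pow, inv_inv]
    have e4 : 1 / (1 - k) - 1 = k / (1 - k) := by field_simp; ring
    have e5 : (k / (1 - k)) ^ 2 ≤ 4 * k ^ 2 := by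
      rw [div_pow, div_le_iff₀ (by positivity)]
      have : 1 / 4 ≤ (1 - k) ^ 2 := by nlinarith
      nlinarith [sq_nonneg k]
    rw [e1, e2, e3, e4] at h1
    have h2 : C * (k / (1 - k)) ^ 2 ≤ C * (4 * k ^ 2) := by gcongr
    have hBe : B = a + A := by linarith
    rw [hBe] at h1
    have h3 : k * A / 10 ≤ k ^ 2 * (A + 4 * C) := by
      have e : 1 / 2 * (a * (1 - k) - a) + 1 / 5 * ((1 - k) ^ 3 * A - A)
        - 1 / 4 * ((1 - k) ^ 2 * (a + A) - (a + A)) + C * (4 * k ^ 2)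
        = - (k * A / 10) + k ^ 2 * (A + 4 * C) - (1 / 4 * k ^ 2 * a)
          - (13 / 20 * k ^ 2 * A) - 1 / 5 * k ^ 3 * A := by ring
      have p1 : 0 ≤ 1 / 4 * k ^ 2 * a := by positivity
      have p2 : 0 ≤ 13 / 20 * k ^ 2 * A := by positivity
      have p3 : 0 ≤ 1 / 5 * k ^ 3 * A := by positivity
      linarith
    have h4 : k * A ≤ k * (k * (10 * (A + 4 * C))) := by nlinarith
    exact le_of_mul_le_mul_left h4 hk
  have h1 : Tendsto (fun n : ℕ => (1 / ((n : ℝ) + 1)) * (10 * (A + 4 * C))) atTop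
      (𝓝 (0 * (10 * (A + 4 * C)))) :=
    (tendsto_one_div_add_atTop_nhds_zero_nat (𝕜 := ℝ)).mul_const _
  rw [zero_mul] at h1
  refine ge_of_tendsto h1 ?_
  filter_upwards [eventually_ge_atTop 1] with n hn
  apply fin _ (by positivity)
  have : (1:ℝ) ≤ n := by exact_mod_cast hn
  apply one_div_le_one_div_of_le <;> linarith

end Pool.Agent.N263.HS
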